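import Mathlib

/-!
# MP_f85992_lc: the residual step fails for unequal-data-demand PIR codes

For `q = 2` there is an `(8,6,6,6,6)`-PIR code of length `15`, but every `(3,3,3,3)`-PIR code has
length at least `8 > 15 - 8`.
-/

set_option autoImplicit false

namespace Pool.Agent.Results.MP_f85992_lc.ResidualStepFails

open Matrix

/-- A set `I` of positions is a recovery set for the data symbol `j`: the columns of `G` indexed by
`I` span a subspace containing the unit vector `e_j`. -/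
def IsRecovery {F : Type} [Field F] {k n : ℕ} (G : Matrix (Fin k) (Fin n) F) (j : Fin k)
    (I : Finset (Fin n)) : Prop :=
  (Pi.single j 1 : Fin k → F) ∈ Submodule.span F ((fun i => (fun l => G l i)) '' (I : Set (Fin n)))

/-- `G` is a `(t_1, ..., t_k)`-PIR code: the encoder is injective and every data symbol `j` has `t_j`
pairwise disjoint recovery sets. -/
def IsPIR {F : Type} [Field F] {k n : ℕ} (t : Fin k → ℕ) (G : Matrix (Fin k) (Fin n) F) : Prop :=
  Function.Injective (fun a : Fin k → F => a ᵥ* G) ∧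
    ∀ j, ∃ I : Fin (t j) → Finset (Fin n), (∀ s s', s ≠ s' → Disjoint (I s) (I s')) ∧
      ∀ s, IsRecovery G j (I s)

/-- The residual step over the field `F` with `q` elements: for all `k ≥ 2` and
`t_1 ≥ ... ≥ t_k ≥ 1`, whenever a `(t_1, ..., t_k)`-PIR code of length `n` exists, a
`(⌈t_2/q⌉, ..., ⌈t_k/q⌉)`-PIR code of length `n - t_1` exists too. (Here `k = m + 1`.) -/
def ResidualStep (F : Type) [Field F] : Prop :=
  ∀ (m n : ℕ) (t : Fin (m + 1) → ℕ), 1 ≤ m → Antitone t → (∀ j, 1 ≤ t j) →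
    (∃ G : Matrix (Fin (m + 1)) (Fin n) F, IsPIR t G) →
    ∃ G' : Matrix (Fin m) (Fin (n - t 0)) F, IsPIR (fun j => (t j.succ) ⌈/⌉ Nat.card F) G'

/-! ### The code of length 15 -/

/-- The generator matrix. -/
def G15 : Matrix (Fin 5) (Fin 15) (ZMod 2) :=
  !![1, 0, 0, 0, 0, 0, 0, 0, 1, 1, 1, 1, 1, 1, 1;
     0, 1, 0, 0, 0, 1, 1, 0, 1, 0, 0, 0, 1, 1, 0;
     0, 0, 1, 0, 0, 1, 0, 1, 0, 1, 0, 0, 1, 0, 1;
     0, 0, 0, 1, 0, 1, 1, 1, 0, 0, 1, 0, 1, 1, 1;
     0, 0, 0, 0, 1, 0, 1, 1, 0, 0, 0, 1, 0, 1, 1]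

/-- The demands. -/
def t15 : Fin 5 → ℕ := ![8, 6, 6, 6, 6]

/-- The recovery sets. -/
def sets : Fin 5 → ℕ → Finset (Fin 15) :=
  ![fun s => ([{0}, {1, 8}, {2, 9}, {3, 10}, {4, 11}, {5, 12}, {6, 13}, {7, 14}] :
        List (Finset (Fin 15))).getD s ∅,
    fun s => ([{1}, {0, 8}, {2, 3, 5}, {7, 9, 13}, {6, 10, 11}, {4, 12, 14}] :
        List (Finset (Fin 15))).getD s ∅,
    fun s => ([{2}, {0, 9}, {1, 3, 5}, {7, 8, 13}, {4, 10, 14}, {6, 11, 12}] :
        List (Finset (Fin 15))).getD s ∅,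
    fun s => ([{3}, {0, 10}, {1, 2, 5}, {6, 8, 11}, {4, 9, 14}, {7, 12, 13}] :
        List (Finset (Fin 15))).getD s ∅,
    fun s => ([{4}, {0, 11}, {1, 3, 6}, {7, 8, 12}, {2, 10, 14}, {5, 9, 13}] :
        List (Finset (Fin 15))).getD s ∅]

theorem sets_disj : ∀ j : Fin 5, ∀ s s' : Fin (t15 j), s ≠ s' → Disjoint (sets j s) (sets j s') := by
  decide +kernel

theorem sets_sum : ∀ j : Fin 5, ∀ s : Fin (t15 j), ∀ l : Fin 5,
    ∑ i ∈ sets j s, G15 l i = (Pi.single j 1 : Fin 5 → ZMod 2) l := by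
  decide +kernel

theorem G15_inj : ∀ a : Fin 5 → ZMod 2, a ᵥ* G15 = 0 → a = 0 := by
  decide +kernel

theorem pir15 : IsPIR t15 G15 := by
  refine ⟨?_, ?_⟩
  · intro a b hab
    have h : (a - b) ᵥ* G15 = 0 := by
      rw [sub_vecMul]
      exact sub_eq_zero.2 hab
    exact sub_eq_zero.1 (G15_inj _ h)
  · intro j
    refine ⟨fun s => sets j s, sets_disj j, ?_⟩
    intro s
    unfold IsRecovery
    have h : (Pi.single j 1 : Fin 5 → ZMod 2) = ∑ i ∈ sets j s, (fun l => G15 l i) := by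
      funext l
      rw [Finset.sum_apply]
      exact (sets_sum j s l).symm
    rw [h]
    refine Submodule.sum_mem _ fun i hi => Submodule.subset_span ⟨i, hi, rfl⟩

/-! ### The lower bound for four data symbols with demand three -/

theorem exists_supp {k n : ℕ} (G : Matrix (Fin k) (Fin n) (ZMod 2)) (I : Finset (Fin n))
    (v : Fin k → ZMod 2)
    (hv : v ∈ Submodule.span (ZMod 2) ((fun i => (fun l => G l i)) '' (I : Set (Fin n)))) :
    ∃ x : Fin n → ZMod 2, (∀ i, i ∉ I → x i = 0) ∧ G *ᵥ x = v := by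
  induction hv using Submodule.span_induction with
  | mem v hv =>
    obtain ⟨i, hi, rfl⟩ := hv
    refine ⟨Pi.single i 1, ?_, ?_⟩
    · intro i' hi'
      rw [Pi.single_eq_of_ne]
      rintro rfl
      exact hi' hi
    · rw [Matrix.mulVec_single_one]
      rfl
  | zero => exact ⟨0, fun _ _ => rfl, Matrix.mulVec_zero G⟩
  | add u v _ _ hu hv =>
    obtain ⟨x, hx, rfl⟩ := hu
    obtain ⟨y, hy, rfl⟩ := hv
    refine ⟨x + y, ?_, Matrix.mulVec_add G x y⟩
    intro i hi
    rw [Pi.add_apply, hx i hi, hy i hi, add_zero]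
  | smul c v _ hv =>
    obtain ⟨x, hx, rfl⟩ := hv
    refine ⟨c • x, ?_, Matrix.mulVec_smul G c x⟩
    intro i hi
    rw [Pi.smul_apply, hx i hi, smul_zero]

theorem sq (a : ZMod 2) : a * a = a := by
  revert a
  decide

theorem dbl (a : ZMod 2) : a + a = 0 := by
  revert a
  decide

/-- Three disjoint recovery sets write the unit vector as the image of a product of two kernel
vectors. -/
theorem exists_prod {k n : ℕ} (G : Matrix (Fin k) (Fin n) (ZMod 2)) (j : Fin k)
    (I : Fin 3 → Finset (Fin n)) (hI : ∀ s s', s ≠ s' → Disjoint (I s) (I s'))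
    (hr : ∀ s, IsRecovery G j (I s)) :
    ∃ u v : Fin n → ZMod 2, G *ᵥ u = 0 ∧ G *ᵥ v = 0 ∧
      G *ᵥ (u * v) = (Pi.single j 1 : Fin k → ZMod 2) := by
  obtain ⟨x, hx, hx1⟩ := exists_supp G (I 0) _ (hr 0)
  obtain ⟨y, hy, hy1⟩ := exists_supp G (I 1) _ (hr 1)
  obtain ⟨z, hz, hz1⟩ := exists_supp G (I 2) _ (hr 2)
  have hdd : (Pi.single j 1 : Fin k → ZMod 2) + Pi.single j 1 = 0 := by
    funext l
    exact dbl _
  refine ⟨x + y, x + z, ?_, ?_, ?_⟩
  · rw [Matrix.mulVec_add, hx1, hy1, hdd]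
  · rw [Matrix.mulVec_add, hx1, hz1, hdd]
  · have h : (x + y) * (x + z) = x := by
      funext i
      simp only [Pi.mul_apply, Pi.add_apply]
      by_cases h0 : i ∈ I 0
      · have h1 : i ∉ I 1 := fun h1 => (Finset.disjoint_left.1 (hI 0 1 (by decide)) h0) h1
        have h2 : i ∉ I 2 := fun h1 => (Finset.disjoint_left.1 (hI 0 2 (by decide)) h0) h1
        rw [hy i h1, hz i h2, add_zero, sq]
      · rw [hx i h0, zero_add, zero_add]
        by_cases h1 : i ∈ I 1
        · have h2 : i ∉ I 2 := fun h2 => (Finset.disjoint_left.1 (hI 1 2 (by decide)) h1) h2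
          rw [hz i h2, mul_zero]
        · rw [hy i h1, zero_mul]
    rw [h, hx1]

/-- The bilinear map `(u, v) ↦ G (u * v)`. -/
def B {k n : ℕ} (G : Matrix (Fin k) (Fin n) (ZMod 2)) :
    (Fin n → ZMod 2) →ₗ[ZMod 2] (Fin n → ZMod 2) →ₗ[ZMod 2] (Fin k → ZMod 2) :=
  LinearMap.mk₂ (ZMod 2) (fun u v => G *ᵥ (u * v))
    (fun u u' v => by rw [add_mul, Matrix.mulVec_add])
    (fun c u v => by rw [smul_mul_assoc, Matrix.mulVec_smul])
    (fun u v v' => by rw [mul_add, Matrix.mulVec_add])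
    (fun c u v => by rw [mul_smul_comm, Matrix.mulVec_smul])

theorem choose_small (r : ℕ) (hr : r ≤ 3) :
    (Finset.univ.filter fun p : Fin r × Fin r => p.1 < p.2).card ≤ 3 := by
  interval_cases r <;> decide

theorem length_ge (n : ℕ) (G : Matrix (Fin 4) (Fin n) (ZMod 2)) (hG : IsPIR (fun _ => 3) G) :
    8 ≤ n := by
  by_contra hn
  push Not at hn
  obtain ⟨-, hI⟩ := hG
  -- the kernel
  set K := LinearMap.ker G.mulVecLin with hK
  have hsurj : LinearMap.range G.mulVecLin = ⊤ := by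
    rw [eq_top_iff, ← (Pi.basisFun (ZMod 2) (Fin 4)).span_eq, Submodule.span_le]
    rintro _ ⟨j, rfl⟩
    obtain ⟨I, hd, hr⟩ := hI j
    obtain ⟨x, -, hx1⟩ := exists_supp G (I 0) _ (hr 0)
    exact ⟨x, by simpa using hx1⟩
  have hfr := LinearMap.finrank_range_add_finrank_ker G.mulVecLin
  rw [hsurj, finrank_top] at hfr
  simp only [Module.finrank_fintype_fun_eq_card, Fintype.card_fin] at hfr
  obtain ⟨r, hr⟩ : ∃ r, Module.finrank (ZMod 2) K = r := ⟨_, rfl⟩
  have hr3 : r ≤ 3 := by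
    rw [← hK] at hfr
    omega
  let b := Module.finBasisOfFinrankEq (ZMod 2) K hr
  set S : Finset (Fin 4 → ZMod 2) :=
    (Finset.univ.filter fun p : Fin r × Fin r => p.1 < p.2).image
      (fun p => B G (b p.1) (b p.2)) with hS
  have hScard : S.card ≤ 3 := Finset.card_image_le.trans (choose_small r hr3)
  set W := Submodule.span (ZMod 2) (S : Set (Fin 4 → ZMod 2)) with hW
  have hbb : ∀ i j, B G (b i : Fin n → ZMod 2) (b j : Fin n → ZMod 2) ∈ W := by
    intro i j
    rcases lt_trichotomy i j with h | h | h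
    · apply Submodule.subset_span
      rw [hS]
      exact Finset.mem_coe.2 (Finset.mem_image.2 ⟨(i, j), by simpa using h, rfl⟩)
    · subst h
      have h1 : B G (b i : Fin n → ZMod 2) (b i : Fin n → ZMod 2) = 0 := by
        show G *ᵥ ((b i : Fin n → ZMod 2) * (b i : Fin n → ZMod 2)) = 0
        have h2 : (b i : Fin n → ZMod 2) * (b i : Fin n → ZMod 2) = b i := by
          funext l
          exact sq _
        rw [h2]
        exact (b i).2
      rw [h1]
      exact zero_mem _
    · have h1 : B G (b i : Fin n → ZMod 2) (b j : Fin n → ZMod 2) =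
          B G (b j : Fin n → ZMod 2) (b i : Fin n → ZMod 2) := by
        show G *ᵥ (_ * _) = G *ᵥ (_ * _)
        rw [mul_comm]
      rw [h1]
      apply Submodule.subset_span
      rw [hS]
      exact Finset.mem_coe.2 (Finset.mem_image.2 ⟨(j, i), by simpa using h, rfl⟩)
  have hKspan : ∀ u : Fin n → ZMod 2, u ∈ K →
      u ∈ Submodule.span (ZMod 2) (Set.range fun i => (b i : Fin n → ZMod 2)) := by
    intro u hu
    have h1 := b.sum_repr ⟨u, hu⟩
    have h2 := congrArg (fun w : K => (w : Fin n → ZMod 2)) h1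
    simp only [Submodule.coe_sum, Submodule.coe_smul] at h2
    rw [← h2]
    exact Submodule.sum_mem _ fun i _ => Submodule.smul_mem _ _ (Submodule.subset_span ⟨i, rfl⟩)
  have hB : ∀ u v : Fin n → ZMod 2, u ∈ K → v ∈ K → B G u v ∈ W := by
    intro u v hu hv
    have h1 := hKspan u hu
    have h2 := hKspan v hv
    clear hu hv
    induction h1 using Submodule.span_induction with
    | mem u hu =>
      obtain ⟨i, rfl⟩ := hu
      induction h2 using Submodule.span_induction with
      | mem v hv =>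
        obtain ⟨j, rfl⟩ := hv
        exact hbb i j
      | zero => rw [map_zero]; exact zero_mem _
      | add x y _ _ hx hy => rw [map_add]; exact add_mem hx hy
      | smul c x _ hx => rw [map_smul]; exact Submodule.smul_mem _ _ hx
    | zero => rw [map_zero, LinearMap.zero_apply]; exact zero_mem _
    | add x y _ _ hx hy => rw [map_add, LinearMap.add_apply]; exact add_mem hx hy
    | smul c x _ hx => rw [map_smul, LinearMap.smul_apply]; exact Submodule.smul_mem _ _ hx
  have htop : W = ⊤ := by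
    rw [eq_top_iff, ← (Pi.basisFun (ZMod 2) (Fin 4)).span_eq, Submodule.span_le]
    rintro _ ⟨j, rfl⟩
    obtain ⟨I, hd, hr⟩ := hI j
    obtain ⟨u, v, hu, hv, huv⟩ := exists_prod G j I hd hr
    have := hB u v hu hv
    rw [show B G u v = G *ᵥ (u * v) from rfl, huv] at this
    simpa using this
  have h4 : Module.finrank (ZMod 2) W ≤ 3 := (finrank_span_finset_le_card S).trans hScard
  rw [htop, finrank_top] at h4
  simp at h4

theorem t_eq : (fun j : Fin 4 => (t15 j.succ) ⌈/⌉ Nat.card (ZMod 2)) = fun _ => 3 := by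
  funext j
  rw [Nat.card_zmod]
  fin_cases j <;> rfl

/-- There is an `(8,6,6,6,6)`-PIR code of length `15` over the field with two elements, every
`(3,3,3,3)`-PIR code has length at least `8`, and so the residual step fails for `q = 2`. -/
theorem result :
    (∃ G : Matrix (Fin 5) (Fin 15) (ZMod 2), IsPIR ![8, 6, 6, 6, 6] G) ∧
    (∀ (n : ℕ) (G : Matrix (Fin 4) (Fin n) (ZMod 2)), IsPIR (fun _ => 3) G → 8 ≤ n) ∧
    ¬ ResidualStep (ZMod 2) := by
  refine ⟨⟨G15, pir15⟩, length_ge, ?_⟩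
  intro h
  obtain ⟨G', hG'⟩ := h 4 15 t15 (by norm_num) (by decide) (by decide) ⟨G15, pir15⟩
  rw [t_eq] at hG'
  have := length_ge _ G' hG'
  revert this
  decide

end Pool.Agent.Results.MP_f85992_lc.ResidualStepFails
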